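import Pool.Agent.TH885.CO.Fin
import Pool.Agent.TH760.EN.Asm
import Pool.Agent.TH105.NU.All
import Pool.Agent.TH2.NU.Final
import Pool.Agent.TH469.SX.TwentyOne
import Pool.Agent.TH864.SX.Final13
import Pool.Agent.TH885.NW.Exp2

/-!
# Nearly uniform classes of the expected dimension: all cases
-/

set_option autoImplicit false

namespace Pool.Agent.TH885.CO

/-- `2 d + 3` minus its critical value for `n` points with sum of multiplicities `W`. -/
noncomputable def excess (n d W : ℕ) : ℝ :=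
  2 * (d : ℝ) + 3 - (√(n : ℝ) + 2 * (W : ℝ) / √(n : ℝ))

theorem good_exp : ∃ N0 : ℕ, ∀ (s d1 m : ℕ) (w1 : Fin s → ℕ) (S : Finset (Fin s)), 1 ≤ m →
    ((37 ≤ S.card ∨ S.card = 13 ∨ S.card = 21) ∧ (∀ i ∈ S, w1 i = m) ∨
      (N0 ≤ S.card ∨ 4 ∣ S.card ∧ 144 ≤ S.card) ∧ (∀ i ∈ S, w1 i = m ∨ w1 i = m + 1) ∨
      (10 ≤ S.card ∧ (∀ i ∈ S, w1 i = m) ∨ 15 ≤ S.card ∧ (∀ i ∈ S, w1 i = m ∨ w1 i = m + 1)) ∧
        (min (√(S.card : ℝ) - 3) (2 / 3 + 1 / (4 * √(S.card : ℝ))) <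
            excess S.card d1 (∑ i ∈ S, w1 i) ∨
          excess S.card d1 (∑ i ∈ S, w1 i) <
            - min (√(S.card : ℝ) - 3) (2 / 3 + 9 / (4 * √(S.card : ℝ))))) →
    ∃ n : ℕ, S.card = n ∧
      ((10 ≤ n ∧ ∀ i ∈ S, w1 i = m) ∨ (15 ≤ n ∧ ∀ i ∈ S, w1 i = m ∨ w1 i = m + 1)) ∧
      ∀ e : Fin n ↪ Fin s, (∀ j, e j ∈ S) → ∀ (K : Type) [Field K] [CharZero K],
        ∃ F : MvPolynomial (Fin n × Fin 2) ℚ, F ≠ 0 ∧ ∀ P : Fin n → Fin 2 → K,
          MvPolynomial.aeval (fun ij : Fin n × Fin 2 => P ij.1 ij.2) F ≠ 0 →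
            Pool.Agent.H932R3.ExpDim K (fun j => w1 (e j)) P d1 := by
  obtain ⟨N0, hN0⟩ := Pool.Agent.TH105.NU.expDim_near
  refine ⟨max N0 15, fun s d1 m w1 S hm hS => ?_⟩
  rcases hS with ⟨hc, hS⟩ | ⟨hc, hS⟩ | ⟨hS, hwin⟩
  · rcases hc with hc | hc | hc
    · refine ⟨S.card, rfl, Or.inl ⟨by omega, hS⟩, fun e he K _ _ => ?_⟩
      have e1 : (fun j => w1 (e j)) = fun _ => m := funext fun j => hS _ (he j)
      obtain ⟨F, hF, hF'⟩ := Pool.Agent.TH760.EN.expDim37 hc hm (L := K)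
      rw [e1]
      exact ⟨F, hF, fun P hP => hF' P hP d1⟩
    · refine ⟨13, hc, Or.inl ⟨by omega, hS⟩, fun e he K _ _ => ?_⟩
      have e1 : (fun j => w1 (e j)) = fun _ => m := funext fun j => hS _ (he j)
      obtain ⟨F, hF, hF'⟩ := Pool.Agent.TH864.SX.uniform13 m
      rw [e1]
      exact ⟨F, hF, fun P hP => hF' P hP d1⟩
    · refine ⟨21, hc, Or.inl ⟨by omega, hS⟩, fun e he K _ _ => ?_⟩
      have e1 : (fun j => w1 (e j)) = fun _ => m := funext fun j => hS _ (he j)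
      obtain ⟨F, hF, hF'⟩ := Pool.Agent.TH469.SX.twentyone m
      rw [e1]
      exact ⟨F, hF, fun P hP => hF' P hP d1⟩
  · rcases hc with hc | ⟨⟨N, hN⟩, hc⟩
    · have h15 : 15 ≤ S.card := le_trans (le_max_right _ _) hc
      refine ⟨S.card, rfl, Or.inr ⟨h15, hS⟩, fun e he K _ _ => ?_⟩
      obtain ⟨F, hF, hF'⟩ := hN0 _ (le_trans (le_max_left _ _) hc) m hm (fun j => w1 (e j))
        (fun j => hS _ (he j)) (L := K)
      exact ⟨F, hF, fun P hP => hF' P hP d1⟩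
    · refine ⟨4 * N, hN, Or.inr ⟨by omega, hS⟩, fun e he K _ _ => ?_⟩
      obtain ⟨F, hF, hF'⟩ := Pool.Agent.TH2.NU.near4 (N := N) (by omega) hm
        (w := fun j => w1 (e j)) (fun j => hS _ (he j)) (L := K)
      exact ⟨F, hF, fun P hP => hF' P hP d1⟩
  · refine ⟨S.card, rfl, hS, fun e he K _ _ => ?_⟩
    have h10 : 10 ≤ S.card := by rcases hS with h1 | h1 <;> omega
    have hv : ∀ j, w1 (e j) = m ∨ w1 (e j) = m + 1 := by
      intro j
      rcases hS with h1 | h1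
      · exact Or.inl (h1.2 _ (he j))
      · exact h1.2 _ (he j)
    have hmap : Finset.univ.map e = S := by
      refine Finset.eq_of_subset_of_card_le ?_ ?_
      · intro i hi
        rw [Finset.mem_map] at hi
        obtain ⟨a, -, rfl⟩ := hi
        exact he a
      · rw [Finset.card_map, Finset.card_univ, Fintype.card_fin]
    have hsum : (∑ j, ((w1 (e j) : ℕ) : ℝ)) = ((∑ i ∈ S, w1 i : ℕ) : ℝ) := by
      have h1 := Finset.sum_map Finset.univ e fun i => ((w1 i : ℕ) : ℝ)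
      rw [hmap] at h1
      rw [← h1]
      push_cast
      rfl
    obtain ⟨F, hF, hF'⟩ := Pool.Agent.TH885.NW.exp_near2 h10 hm hv (L := K)
    refine ⟨F, hF, fun P hP => hF' P hP d1 ?_⟩
    unfold Pool.Agent.TH885.NW.upW Pool.Agent.TH885.NW.loW
    rw [hsum]
    exact hwin

end Pool.Agent.TH885.CO
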