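import Pool.Agent.TH885.CO.Plus

/-!
# Segre's conjecture for classes with a good reduction
-/

set_option autoImplicit false

namespace Pool.Agent.TH885.CO

open MvPolynomial Pool.Agent Pool.Agent.TH167 Pool.Agent.W609.CR

/-- Removal of the multiple `k` of the line through two of the points, which meets the class `a` in
`-k`. -/
def LineStep {s : ℕ} (a b : ℕ × (Fin s → ℕ)) : Prop :=
  ∃ i j : Fin s, i ≠ j ∧ ∃ k : ℕ, 0 < k ∧ a.1 + k = a.2 i + a.2 j ∧ b.1 + k = a.1 ∧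
    b.2 i + k = a.2 i ∧ b.2 j + k = a.2 j ∧ ∀ l, l ≠ i → l ≠ j → b.2 l = a.2 l

theorem quad_of {s : ℕ} {a b : ℕ × (Fin s → ℕ)} (h : SHDefs.Quadratic a b) : Quad a b := by
  obtain ⟨i, j, k, hij, hik, hjk, h0, h1, h2, h3, h4⟩ := h
  refine ⟨![i, j, k], ?_, ⟨?_, ?_, ?_⟩, ?_⟩
  · intro x y hxy
    fin_cases x <;> fin_cases y <;> simp_all
  · show a.2 i + a.2 j ≤ a.1
    omega
  · show a.2 i + a.2 k ≤ a.1
    omega
  · show a.2 j + a.2 k ≤ a.1
    omega
  · refine Prod.ext ?_ ?_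
    · show b.1 = 2 * a.1 - (a.2 i + a.2 j + a.2 k)
      omega
    · funext l
      show b.2 l = wcr a.1 ![i, j, k] a.2 l
      unfold wcr
      show b.2 l = if l = i then a.1 - (a.2 j + a.2 k) else if l = j then a.1 - (a.2 i + a.2 k) else
        if l = k then a.1 - (a.2 i + a.2 j) else a.2 l
      by_cases c0 : l = i
      · rw [if_pos c0, c0]
        omega
      by_cases c1 : l = j
      · rw [if_neg c0, if_pos c1, c1]
        omega
      by_cases c2 : l = k
      · rw [if_neg c0, if_neg c1, if_pos c2, c2]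
        omega
      · rw [if_neg c0, if_neg c1, if_neg c2]
        exact h4 l c0 c1 c2

theorem step_quad {s : ℕ} {a b : ℕ × (Fin s → ℕ)} (h : Quad a b) : Step a b := by
  obtain ⟨i, hi, p, rfl⟩ := h
  exact Step.quad a i hi p

theorem step_line {s : ℕ} {a b : ℕ × (Fin s → ℕ)} (h : LineStep a b) : Step a b := by
  obtain ⟨i, j, hij, k, hk, h0, h1, h2, h3, h4⟩ := h
  have e1 : b = (a.1 - k, sb i j k a.2) := by
    refine Prod.ext ?_ ?_
    · show b.1 = a.1 - k
      omega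
    · funext l
      show b.2 l = if l = i ∨ l = j then a.2 l - k else a.2 l
      by_cases c0 : l = i
      · rw [if_pos (Or.inl c0), c0]
        omega
      by_cases c1 : l = j
      · rw [if_pos (Or.inr c1), c1]
        omega
      · rw [if_neg (by tauto)]
        exact h4 l c0 c1
  rw [e1]
  exact Step.line a i j hij k hk (by omega) (by omega) (by omega) h0

theorem rtg_mono {α : Type} {p q : α → α → Prop} (h : ∀ a b, p a b → q a b) {a b : α}
    (hab : Relation.ReflTransGen p a b) : Relation.ReflTransGen q a b := by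
  induction hab with
  | refl => exact Relation.ReflTransGen.refl
  | tail _ h1 ih => exact ih.tail (h _ _ h1)

theorem step_of {s : ℕ} {a b : ℕ × (Fin s → ℕ)}
    (h : Relation.ReflTransGen (fun a b => SHDefs.Quadratic a b ∨ LineStep a b) a b) :
    Relation.ReflTransGen Step a b := by
  refine rtg_mono (fun a b h => ?_) h
  rcases h with h1 | h1
  · exact step_quad (quad_of h1)
  · exact step_line h1

/-- Classes in the Cremona orbit of a class of the expected dimension are never special. -/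
theorem never_of {r : ℕ} {d d1 : ℕ} {w w1 : Fin (r + 4) → ℕ}
    (h : Relation.ReflTransGen Quad (d, w) (d1, w1))
    (hexp : ∀ (K : Type) [Field K] [CharZero K] (P : Fin (r + 4) → Fin 2 → K),
      AlgebraicIndependent ℚ (fun ij : Fin (r + 4) × Fin 2 => P ij.1 ij.2) →
      Module.finrank K ↥(VS (fun j => aff (P j)) w1 d1) =
        (d1 + 2).choose 2 - ∑ j, (w1 j + 1).choose 2) :
    ∃ F : MvPolynomial (Fin (r + 4) × Fin 2) ℚ, F ≠ 0 ∧ ∀ (K : Type) [Field K] [CharZero K]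
      (P : Fin (r + 4) → Fin 2 → K), evP P F ≠ 0 → ¬ Special P d w := by
  classical
  obtain ⟨g, Fg, hFg, hg⟩ := dim_gen w d
  obtain ⟨K0, i1, i2, P0, hP0⟩ := exists_generic (r + 4)
  have hg1 := hg K0 P0 (evP_ne hP0 hFg)
  obtain ⟨P1, hP1, c1, -⟩ := reduce (rtg_mono (fun _ _ h => step_quad h) h) P0 hP0
  simp only at c1
  have he := hexp K0 P1 hP1
  rw [he, hg1] at c1
  refine ⟨Fg, hFg, fun K _ _ P hP hs => ?_⟩
  rw [special_iff, hg K P hP] at hs
  obtain ⟨e1, -, -⟩ := quad_inv h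
  simp only at e1
  have h2 := chi_cast d1 w1
  omega

/-- General points are different. -/
theorem exists_inj (r : ℕ) : ∃ F' : MvPolynomial (Fin (r + 4) × Fin 2) ℚ, F' ≠ 0 ∧
    ∀ (K : Type) [Field K] [CharZero K] (P : Fin (r + 4) → Fin 2 → K), evP P F' ≠ 0 →
      Function.Injective P := by
  classical
  refine ⟨∏ i ∈ Finset.univ.filter (fun i : Fin 3 → Fin (r + 4) => Function.Injective i),
      (mR i).det, ?_, ?_⟩
  · refine Finset.prod_ne_zero_iff.2 fun i hi => ?_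
    rw [Finset.mem_filter] at hi
    intro h0
    obtain ⟨K, _, _, P, hP⟩ := exists_generic (r + 4)
    obtain ⟨P', hP', hr⟩ := exists_crel hP hi.2
    have h1 := mR_det P i
    rw [h0, map_zero] at h1
    exact hr.det h1.symm
  · intro K' _ _ P' hP'
    rw [map_prod] at hP'
    refine inj_of_det fun i hi => ?_
    rw [← mR_det]
    exact Finset.prod_ne_zero_iff.1 hP' i (Finset.mem_filter.2 ⟨Finset.mem_univ _, hi⟩)

/-- Segre's conjecture for a class `(d, w)` which reduces to a class `(d1, w1)` of the expected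
dimension. -/
theorem segre_q {s d d1 n m : ℕ} {w w1 : Fin s → ℕ} (hm : 1 ≤ m) (S : Finset (Fin s))
    (hS : S.card = n) (hw : ∀ i, i ∉ S → w1 i ≤ 1)
    (hnear : (10 ≤ n ∧ ∀ i ∈ S, w1 i = m) ∨ (15 ≤ n ∧ ∀ i ∈ S, w1 i = m ∨ w1 i = m + 1))
    (hexp : ∀ e : Fin n ↪ Fin s, (∀ j, e j ∈ S) → ∀ (K : Type) [Field K] [CharZero K],
      ∃ F : MvPolynomial (Fin n × Fin 2) ℚ, F ≠ 0 ∧ ∀ P : Fin n → Fin 2 → K,
        MvPolynomial.aeval (fun ij : Fin n × Fin 2 => P ij.1 ij.2) F ≠ 0 →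
          Pool.Agent.H932R3.ExpDim K (fun j => w1 (e j)) P d1)
    (h : Relation.ReflTransGen (fun a b => SHDefs.Quadratic a b ∨ LineStep a b) (d, w) (d1, w1)) :
    ∃ F : MvPolynomial (Fin s × Fin 2) ℚ, F ≠ 0 ∧ ∀ (K : Type) [Field K] [CharZero K]
      (P : Fin s → Fin 2 → K), evP P F ≠ 0 →
        (SHDefs.Special P d w → ∃ (G : MvPolynomial (Fin 3) K) (e : ℕ) (u : Fin s → ℕ),
          SHDefs.MinusOne P G e u ∧ SHDefs.inter d w e u ≤ -2 ∧
            ∀ f ∈ SHDefs.sys P d w, G ^ 2 ∣ f) ∧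
        (Relation.ReflTransGen SHDefs.Quadratic (d, w) (d1, w1) → ¬ SHDefs.Special P d w) := by
  classical
  have hcard : S.card ≤ s := by
    have := Finset.card_le_univ S
    rwa [Fintype.card_fin] at this
  obtain ⟨r, rfl⟩ : ∃ r, s = r + 4 := ⟨s - 4, by omega⟩
  obtain ⟨e, he⟩ : ∃ e : Fin n ↪ Fin (r + 4), e = (S.orderEmbOfFin hS).toEmbedding := ⟨_, rfl⟩
  have heS : ∀ j, e j ∈ S := fun j => by
    rw [he]
    exact S.orderEmbOfFin_mem hS j
  have hSe : ∀ i, i ∉ Finset.univ.map e → i ∉ S := by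
    intro i hi h1
    refine hi ?_
    have h2 : i ∈ Set.range (S.orderEmbOfFin hS) := by
      rw [Finset.range_orderEmbOfFin]
      exact h1
    obtain ⟨a, ha⟩ := h2
    rw [Finset.mem_map]
    refine ⟨a, Finset.mem_univ _, ?_⟩
    rw [he]
    exact ha
  have hw' : ∀ i, i ∉ Finset.univ.map e → w1 i ≤ 1 := fun i hi => hw i (hSe i hi)
  have hexp' : ∀ (K : Type) [Field K] [CharZero K] (P : Fin (r + 4) → Fin 2 → K),
      AlgebraicIndependent ℚ (fun ij : Fin (r + 4) × Fin 2 => P ij.1 ij.2) →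
      Module.finrank K ↥(VS (fun j => aff (P j)) w1 d1) =
        (d1 + 2).choose 2 - ∑ j, (w1 j + 1).choose 2 :=
    fun K _ _ P hP => exp_plus e hw' (hexp e heS K) hP
  have hred : ∑ j, (w1 j + 1).choose 2 < (d1 + 2).choose 2 → Reduced d1 w1 := by
    refine red_near e hm hw' ?_
    rcases hnear with ⟨h1, h2⟩ | ⟨h1, h2⟩
    · exact Or.inl ⟨h1, fun j => h2 _ (heS j)⟩
    · exact Or.inr ⟨h1, fun j => h2 _ (heS j)⟩
  obtain ⟨F1, hF1, hF1'⟩ := special_of (step_of h) hexp' hred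
  obtain ⟨F2, hF2, hF2'⟩ := exists_inj r
  obtain ⟨F3, hF3, hF3'⟩ : ∃ F : MvPolynomial (Fin (r + 4) × Fin 2) ℚ, F ≠ 0 ∧
      ∀ (K : Type) [Field K] [CharZero K] (P : Fin (r + 4) → Fin 2 → K), evP P F ≠ 0 →
        Relation.ReflTransGen SHDefs.Quadratic (d, w) (d1, w1) → ¬ Special P d w := by
    by_cases hq : Relation.ReflTransGen SHDefs.Quadratic (d, w) (d1, w1)
    · obtain ⟨F, hF, hF'⟩ := never_of
        (rtg_mono (fun _ _ h => quad_of h) hq) hexp'
      exact ⟨F, hF, fun K _ _ P hP _ => hF' K P hP⟩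
    · exact ⟨1, one_ne_zero, fun K _ _ P _ h1 => absurd h1 hq⟩
  refine ⟨F1 * F2 * F3, mul_ne_zero (mul_ne_zero hF1 hF2) hF3, fun K _ _ P hP => ?_⟩
  rw [map_mul, map_mul] at hP
  have q1 := left_ne_zero_of_mul (left_ne_zero_of_mul hP)
  have q2 := right_ne_zero_of_mul (left_ne_zero_of_mul hP)
  have q3 := right_ne_zero_of_mul hP
  refine ⟨fun hs => ?_, fun hq hs => ?_⟩
  · rw [special_conv] at hs
    obtain ⟨G, e', u, h1, h2⟩ := mspecial_curve ((mspecial_conv P d w).2 (hF1' K P q1 hs))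
    exact ⟨G, e', u, h1, h2, fun f hf => curve_sq_dvd (hF2' K P q2) h1 h2 hf⟩
  · rw [special_conv] at hs
    exact hF3' K P q3 hq hs

/-- The statement for general points of the complex plane. -/
theorem segre_core {s d d1 n m : ℕ} {w w1 : Fin s → ℕ} (hm : 1 ≤ m) (S : Finset (Fin s))
    (hS : S.card = n) (hw : ∀ i, i ∉ S → w1 i ≤ 1)
    (hnear : (10 ≤ n ∧ ∀ i ∈ S, w1 i = m) ∨ (15 ≤ n ∧ ∀ i ∈ S, w1 i = m ∨ w1 i = m + 1))
    (hexp : ∀ e : Fin n ↪ Fin s, (∀ j, e j ∈ S) → ∀ (K : Type) [Field K] [CharZero K],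
      ∃ F : MvPolynomial (Fin n × Fin 2) ℚ, F ≠ 0 ∧ ∀ P : Fin n → Fin 2 → K,
        MvPolynomial.aeval (fun ij : Fin n × Fin 2 => P ij.1 ij.2) F ≠ 0 →
          Pool.Agent.H932R3.ExpDim K (fun j => w1 (e j)) P d1)
    (h : Relation.ReflTransGen (fun a b => SHDefs.Quadratic a b ∨ LineStep a b) (d, w) (d1, w1)) :
    ∃ F : MvPolynomial (Fin s × Fin 2) ℂ, F ≠ 0 ∧ ∀ P : Fin s → Fin 2 → ℂ,
      MvPolynomial.eval (fun ij : Fin s × Fin 2 => P ij.1 ij.2) F ≠ 0 →
        (SHDefs.Special P d w → ∃ (G : MvPolynomial (Fin 3) ℂ) (e : ℕ) (u : Fin s → ℕ),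
          SHDefs.MinusOne P G e u ∧ SHDefs.inter d w e u ≤ -2 ∧
            ∀ f ∈ SHDefs.sys P d w, G ^ 2 ∣ f) ∧
        (Relation.ReflTransGen SHDefs.Quadratic (d, w) (d1, w1) → ¬ SHDefs.Special P d w) := by
  obtain ⟨F, hF, hF'⟩ := segre_q hm S hS hw hnear hexp h
  refine ⟨F.map (algebraMap ℚ ℂ), map_ne hF, fun P hP => ?_⟩
  rw [evP_eval] at hP
  exact hF' ℂ P hP

/-- The statement for prime divisors at generic points: the dimension is the virtual one. -/
theorem prime_core {K : Type} [Field K] [CharZero K] {s d d1 n m : ℕ} {w w1 : Fin s → ℕ}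
    (hm : 1 ≤ m) (S : Finset (Fin s))
    (hS : S.card = n) (hw : ∀ i, i ∉ S → w1 i ≤ 1)
    (hnear : (10 ≤ n ∧ ∀ i ∈ S, w1 i = m) ∨ (15 ≤ n ∧ ∀ i ∈ S, w1 i = m ∨ w1 i = m + 1))
    (hexp : ∀ e : Fin n ↪ Fin s, (∀ j, e j ∈ S) → ∀ (K : Type) [Field K] [CharZero K],
      ∃ F : MvPolynomial (Fin n × Fin 2) ℚ, F ≠ 0 ∧ ∀ P : Fin n → Fin 2 → K,
        MvPolynomial.aeval (fun ij : Fin n × Fin 2 => P ij.1 ij.2) F ≠ 0 →
          Pool.Agent.H932R3.ExpDim K (fun j => w1 (e j)) P d1)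
    (h : Relation.ReflTransGen (fun a b => SHDefs.Quadratic a b ∨ LineStep a b) (d, w) (d1, w1))
    {P : Fin s → Fin 2 → K}
    (hP : AlgebraicIndependent ℚ (fun ij : Fin s × Fin 2 => P ij.1 ij.2))
    {C : MvPolynomial (Fin 3) K} (hC : SHDefs.Curve P C d w) :
    SHDefs.dimL P d w = SHDefs.virtdim d w := by
  obtain ⟨F, hF, hF'⟩ := segre_q hm S hS hw hnear hexp h
  have h1 := (hF' K P (evP_ne hP hF)).1
  have hCm : C ∈ SHDefs.sys P d w := by
    unfold SHDefs.sys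
    rw [Submodule.mem_inf, mem_homogeneousSubmodule, Submodule.restrictScalars_mem,
      Ideal.mem_iInf]
    exact ⟨hC.homogeneous, fun i => (hC.mult i).1⟩
  have h2 : ¬ SHDefs.Special P d w := by
    intro hs
    obtain ⟨G, e, u, hG, -, hdiv⟩ := h1 hs
    have h3 := hdiv C hCm
    have h4 : Squarefree C := hC.irreducible.squarefree
    have h5 := h4 G (by rw [← pow_two]; exact h3)
    exact hG.curve.irreducible.not_isUnit h5
  have h6 : 0 < Module.finrank K ↥(SHDefs.sys P d w) := by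
    rw [sys_eq]
    have hf := vs_fin (fun j => aff (P j)) w d
    refine Module.finrank_pos_iff.2 ?_
    rw [← sys_eq]
    exact ⟨⟨C, hCm⟩, 0, fun h7 => hC.irreducible.ne_zero (congrArg Subtype.val h7)⟩
  unfold SHDefs.Special at h2
  push Not at h2
  have h8 : SHDefs.dimL P d w = (Module.finrank K ↥(SHDefs.sys P d w) : ℤ) - 1 := rfl
  omega

end Pool.Agent.TH885.CO
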