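import Pool.Agent.TH885.CO.Red
import Pool.Agent.H932R3.Finals

/-!
# The expected dimension with additional simple points
-/

set_option autoImplicit false

namespace Pool.Agent.TH885.CO

open MvPolynomial Pool.Agent Pool.Agent.TH167 Pool.Agent.W609.CR

theorem sys_of {K : Type} [Field K] {n : ℕ} {w : Fin n → ℕ} {P : Fin n → Fin 2 → K} {d : ℕ}
    (h : Pool.Agent.H932R3.ExpDim K w P d) :
    Module.finrank K ↥(SHDefs.sys P d w) = (d + 2).choose 2 - ∑ j, (w j + 1).choose 2 := h

theorem vs_of {K : Type} [Field K] {n : ℕ} {w : Fin n → ℕ} {P : Fin n → Fin 2 → K} {d : ℕ}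
    (h : Module.finrank K ↥(SHDefs.sys P d w) = (d + 2).choose 2 - ∑ j, (w j + 1).choose 2) :
    Module.finrank K ↥(VS (fun j => aff (P j)) w d) =
      (d + 2).choose 2 - ∑ j, (w j + 1).choose 2 := by
  rw [← sys_eq P d w]
  exact h

theorem alg_emb {K : Type} [Field K] [CharZero K] {n s : ℕ} (e : Fin n ↪ Fin s)
    {P : Fin s → Fin 2 → K}
    (hP : AlgebraicIndependent ℚ (fun ij : Fin s × Fin 2 => P ij.1 ij.2)) :
    AlgebraicIndependent ℚ (fun ij : Fin n × Fin 2 => (fun j => P (e j)) ij.1 ij.2) := by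
  have h := hP.comp (fun ij : Fin n × Fin 2 => (e ij.1, ij.2)) (by
      rintro ⟨a, b⟩ ⟨a', b'⟩ h
      have h1 := congrArg Prod.fst h
      have h2 := congrArg Prod.snd h
      exact Prod.ext (e.injective h1) h2)
  exact h

/-- A class with `w ≤ 1` outside a set of points at which the dimension is the expected one. -/
theorem exp_plus {K : Type} [Field K] [CharZero K] {n s : ℕ} (e : Fin n ↪ Fin s)
    {w : Fin s → ℕ} {d : ℕ} (hw : ∀ i, i ∉ Finset.univ.map e → w i ≤ 1)
    (hexp : ∃ F : MvPolynomial (Fin n × Fin 2) ℚ, F ≠ 0 ∧ ∀ P : Fin n → Fin 2 → K,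
      MvPolynomial.aeval (fun ij : Fin n × Fin 2 => P ij.1 ij.2) F ≠ 0 →
        Pool.Agent.H932R3.ExpDim K (fun j => w (e j)) P d)
    {P : Fin s → Fin 2 → K}
    (hP : AlgebraicIndependent ℚ (fun ij : Fin s × Fin 2 => P ij.1 ij.2)) :
    Module.finrank K ↥(VS (fun j => aff (P j)) w d) =
      (d + 2).choose 2 - ∑ j, (w j + 1).choose 2 := by
  classical
  obtain ⟨F, hF, hF'⟩ := hexp
  have h0 : evP (fun j => P (e j)) F ≠ 0 := evP_ne (P := fun j => P (e j)) (alg_emb e hP) hF
  rw [evP_apply] at h0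
  have h1 := hF' (fun j => P (e j)) h0
  have h2 := vs_of (sys_of h1)
  obtain ⟨w0, hw0⟩ : ∃ w0 : Fin s → ℕ, w0 = fun i => if i ∈ Finset.univ.map e then w i else 0 :=
    ⟨_, rfl⟩
  obtain ⟨T, hT⟩ : ∃ T : Finset (Fin s), T = (Finset.univ.map e)ᶜ.filter fun i => w i = 1 :=
    ⟨_, rfl⟩
  have hmT : ∀ i, i ∈ T ↔ i ∉ Finset.univ.map e ∧ w i = 1 := by
    intro i
    rw [hT, Finset.mem_filter, Finset.mem_compl]
  have e1 : w = fun i => if i ∈ T then 1 else w0 i := by
    funext i
    by_cases hi : i ∈ T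
    · rw [if_pos hi]
      exact ((hmT i).1 hi).2
    · rw [if_neg hi, hw0]
      show w i = if i ∈ Finset.univ.map e then w i else 0
      by_cases hr : i ∈ Finset.univ.map e
      · rw [if_pos hr]
      · rw [if_neg hr]
        have h3 := hw i hr
        have h4 : w i ≠ 1 := fun h5 => hi ((hmT i).2 ⟨hr, h5⟩)
        omega
  have h3 := simple_many hP w0 d T (fun i hi => by
    rw [hw0]
    exact if_neg ((hmT i).1 hi).1)
  rw [← e1] at h3
  have h4 : VS (fun j => aff (P j)) w0 d = VS (fun j => aff (P (e j))) (fun j => w0 (e j)) d := by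
    refine vs_emb e P w0 (fun i hi => ?_) d
    rw [hw0]
    refine if_neg fun h5 => hi ?_
    rw [Finset.mem_map] at h5
    obtain ⟨a, -, ha⟩ := h5
    exact ⟨a, ha⟩
  have h5 : (fun j => w0 (e j)) = fun j => w (e j) := by
    funext j
    rw [hw0]
    exact if_pos (Finset.mem_map_of_mem e (Finset.mem_univ j))
  rw [h5] at h4
  rw [h3, h4, h2]
  have h6 : ∑ j, (w j + 1).choose 2 = ∑ j, (w (e j) + 1).choose 2 + T.card := by
    rw [← Finset.sum_add_sum_compl (Finset.univ.map e), Finset.sum_map]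
    congr 1
    rw [hT, Finset.card_filter]
    refine Finset.sum_congr rfl fun i hi => ?_
    have h7 := hw i (Finset.mem_compl.1 hi)
    by_cases h8 : w i = 1
    · rw [if_pos h8, h8]
      rfl
    · rw [if_neg h8]
      have h9 : w i = 0 := by omega
      rw [h9]
      rfl
  rw [h6]
  omega

end Pool.Agent.TH885.CO
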