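import Pool.Agent.TH885.CO.Segre
import Pool.Agent.TH885.CO.Bas

/-!
# Reduction of classes: quadratic transformations and removal of lines

A class whose reduction ends in a class of the expected dimension satisfies the
Segre-Harbourne-Gimigliano-Hirschowitz statement.
-/

set_option autoImplicit false

namespace Pool.Agent.TH885.CO

open MvPolynomial Pool.Agent Pool.Agent.TH167 Pool.Agent.W609.CR

/-- One reduction step. -/
inductive Step {s : ℕ} : ℕ × (Fin s → ℕ) → ℕ × (Fin s → ℕ) → Prop
  | quad (a : ℕ × (Fin s → ℕ)) (i : Fin 3 → Fin s) (hi : Function.Injective i)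
      (p : PS i a.1 a.2) : Step a (cd i a.1 a.2, wcr a.1 i a.2)
  | line (a : ℕ × (Fin s → ℕ)) (i j : Fin s) (hij : i ≠ j) (n : ℕ) (hn : 0 < n) (h1 : n ≤ a.1)
      (h2 : n ≤ a.2 i) (h3 : n ≤ a.2 j) (h4 : a.1 + n = a.2 i + a.2 j) :
      Step a (a.1 - n, sb i j n a.2)

theorem reduce {K : Type} [Field K] [CharZero K] {r : ℕ} {a b : ℕ × (Fin (r + 4) → ℕ)}
    (h : Relation.ReflTransGen Step a b) :
    ∀ (P : Fin (r + 4) → Fin 2 → K)
      (_ : AlgebraicIndependent ℚ (fun ij : Fin (r + 4) × Fin 2 => P ij.1 ij.2)),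
      ∃ (P1 : Fin (r + 4) → Fin 2 → K),
        AlgebraicIndependent ℚ (fun ij : Fin (r + 4) × Fin 2 => P1 ij.1 ij.2) ∧
        Module.finrank K ↥(VS (fun j => aff (P j)) a.2 a.1) =
          Module.finrank K ↥(VS (fun j => aff (P1 j)) b.2 b.1) ∧
        (Reduced b.1 b.2 → ∃ (d' : ℕ) (w' : Fin (r + 4) → ℕ) (k : ℕ)
          (C : Fin k → MvPolynomial (Fin 3) K)
          (e : Fin k → ℕ) (u : Fin k → Fin (r + 4) → ℕ) (N : Fin k → ℕ),
          Dec P a.1 a.2 d' w' C e u N ∧
          Module.finrank K ↥(VS (fun j => aff (P j)) w' d') =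
            Module.finrank K ↥(VS (fun j => aff (P j)) a.2 a.1) ∧
          Relation.ReflTransGen Quad (d', w') b) := by
  classical
  induction h using Relation.ReflTransGen.head_induction_on with
  | refl =>
    intro P hP
    refine ⟨P, hP, rfl, fun hred => ?_⟩
    refine ⟨b.1, b.2, 0, Fin.elim0, Fin.elim0, Fin.elim0, Fin.elim0, ?_, rfl,
      Relation.ReflTransGen.refl⟩
    refine ⟨fun a => a.elim0, fun a => a.elim0, fun a => a.elim0, ?_, ?_, fun a => a.elim0,
      fun C e u h => red_nef hred h⟩
    · simp
    · intro j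
      simp
  | @head a c hac _ ih =>
    intro P hP
    cases hac with
    | quad i hi p =>
      obtain ⟨P', hP', hr⟩ := exists_crel hP hi
      have hdim := hr.dim p
      obtain ⟨P1, hP1, c1, c2⟩ := ih P' hP'
      refine ⟨P1, hP1, ?_, fun hred => ?_⟩
      · rw [← c1]
        exact hdim.symm
      · obtain ⟨d', w', n, C, e, u, N, hD, hd1, hch⟩ := c2 hred
        obtain ⟨pM, C', hD'⟩ := hD.pull hP hP' hr p
        have hdM := hr.symm.dim pM
        refine ⟨_, _, n, C', _, _, N, hD', ?_, ?_⟩
        · rw [hdM, hd1]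
          exact hdim
        · refine Relation.ReflTransGen.head ⟨i, hi, pM.cr hi, ?_⟩ hch
          rw [cd_cr hi pM, wcr_cr hi pM]
    | line i j hij n hn h1 h2 h3 h4 =>
      have hdim := line_k hP hij n a.2 a.1 h1 h2 h3 h4.le
      obtain ⟨P1, hP1, c1, c2⟩ := ih P hP
      refine ⟨P1, hP1, ?_, fun hred => ?_⟩
      · rw [← c1]
        exact hdim
      · obtain ⟨d', w', k, C, e, u, N, hD, hd1, hch⟩ := c2 hred
        exact ⟨d', w', k + 1, _, _, _, _, hD.line hP hij hn h1 h2 h3 h4,
          hd1.trans hdim.symm, hch⟩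

theorem chi_cast {s : ℕ} (d : ℕ) (w : Fin s → ℕ) :
    chi d w = ((d + 2).choose 2 : ℤ) - ((∑ j, (w j + 1).choose 2 : ℕ) : ℤ) := by
  unfold chi
  push_cast
  rfl

/-- If the reduction ends in a class which is not special, a special class is `(-1)`-special. -/
theorem special_of {r : ℕ} {d d1 : ℕ} {w w1 : Fin (r + 4) → ℕ}
    (h : Relation.ReflTransGen Step (d, w) (d1, w1))
    (hexp : ∀ (K : Type) [Field K] [CharZero K] (P : Fin (r + 4) → Fin 2 → K),
      AlgebraicIndependent ℚ (fun ij : Fin (r + 4) × Fin 2 => P ij.1 ij.2) →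
      Module.finrank K ↥(VS (fun j => aff (P j)) w1 d1) =
        (d1 + 2).choose 2 - ∑ j, (w1 j + 1).choose 2)
    (hred : ∑ j, (w1 j + 1).choose 2 < (d1 + 2).choose 2 → Reduced d1 w1) :
    ∃ F : MvPolynomial (Fin (r + 4) × Fin 2) ℚ, F ≠ 0 ∧ ∀ (K : Type) [Field K] [CharZero K]
      (P : Fin (r + 4) → Fin 2 → K), evP P F ≠ 0 → Special P d w → MSpecial P d w := by
  classical
  obtain ⟨g, Fg, hFg, hg⟩ := dim_gen w d
  obtain ⟨K0, i1, i2, P0, hP0⟩ := exists_generic (r + 4)
  have hg1 := hg K0 P0 (evP_ne hP0 hFg)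
  obtain ⟨P1, hP1, c1, c2⟩ := reduce h P0 hP0
  simp only at c1 c2
  have he := hexp K0 P1 hP1
  rw [he, hg1] at c1
  rcases Nat.eq_zero_or_pos g with hg0 | hg0
  · refine ⟨Fg, hFg, fun K _ _ P hP hs => ?_⟩
    exfalso
    rw [special_iff, hg K P hP, hg0] at hs
    omega
  · obtain ⟨d', w', k, C0, e, u, N, hD, hdim, hch⟩ := c2 (hred (by omega))
    have hspr := fun a => exc_spread (e a) (u a) ⟨K0, i1, i2, P0, C0 a, hP0, hD.exc a⟩
    choose Fa hFa hFa' using hspr
    refine ⟨Fg * ∏ a, Fa a, mul_ne_zero hFg
      (Finset.prod_ne_zero_iff.2 fun a _ => hFa a), fun K _ _ P hP hs => ?_⟩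
    rw [map_mul, map_prod] at hP
    have q0 := hg K P (left_ne_zero_of_mul hP)
    have q3 := Finset.prod_ne_zero_iff.1 (right_ne_zero_of_mul hP)
    choose C hC using fun a => hFa' a K P (q3 a (Finset.mem_univ a))
    have hDcp : Dcp P d w d' w' C e u N := ⟨hC, hD.pos, hD.orth, hD.deg, hD.mul, hD.zero⟩
    obtain ⟨e1, -, -⟩ := quad_inv hch
    simp only at e1
    rw [special_iff, q0] at hs
    have h1 : chi d1 w1 = g := by
      rw [chi_cast]
      omega
    refine ⟨d', w', k, C, e, u, N, hDcp, by omega, ?_⟩
    by_contra hcon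
    push Not at hcon
    have h2 := hDcp.chi_one hcon
    omega

/-- Points in a finite set of general points. -/
theorem vs_emb {K : Type} [Field K] {n s : ℕ} (e : Fin n ↪ Fin s) (P : Fin s → Fin 2 → K)
    (w : Fin s → ℕ) (hw : ∀ i, i ∉ Set.range e → w i = 0) (d : ℕ) :
    VS (fun j => aff (P j)) w d = VS (fun j => aff (P (e j))) (fun j => w (e j)) d := by
  ext f
  rw [mem_VS, mem_VS]
  constructor
  · rintro ⟨h1, h2⟩
    exact ⟨h1, fun j => h2 (e j)⟩
  · rintro ⟨h1, h2⟩
    refine ⟨h1, fun i => ?_⟩
    by_cases hi : i ∈ Set.range e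
    · obtain ⟨j, rfl⟩ := hi
      exact h2 j
    · rw [hw i hi]
      exact van_zero _ _

/-- Generic simple points impose independent conditions. -/
theorem simple_many {K : Type} [Field K] [CharZero K] {s : ℕ} {P : Fin s → Fin 2 → K}
    (hP : AlgebraicIndependent ℚ (fun ij : Fin s × Fin 2 => P ij.1 ij.2)) (w : Fin s → ℕ)
    (d : ℕ) (T : Finset (Fin s)) : (∀ i ∈ T, w i = 0) →
    Module.finrank K ↥(VS (fun j => aff (P j)) (fun i => if i ∈ T then 1 else w i) d) =
      Module.finrank K ↥(VS (fun j => aff (P j)) w d) - T.card := by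
  classical
  induction T using Finset.induction_on with
  | empty =>
    intro _
    have e1 : (fun i => if i ∈ (∅ : Finset (Fin s)) then 1 else w i) = w := by
      funext i
      exact if_neg (Finset.notMem_empty i)
    rw [e1, Finset.card_empty, Nat.sub_zero]
  | @insert j T hj ih =>
    intro hT
    have h1 := ih fun i hi => hT i (Finset.mem_insert_of_mem hi)
    have hz : (fun i => if i ∈ T then 1 else w i) j = 0 := by
      simp only [hj, if_false]
      exact hT j (Finset.mem_insert_self _ _)
    have hu : Function.update (fun i => if i ∈ T then 1 else w i) j 1 =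
        fun i => if i ∈ insert j T then 1 else w i := by
      funext i
      by_cases hi : i = j
      · subst hi
        rw [Function.update_self, if_pos (Finset.mem_insert_self _ _)]
      · rw [Function.update_of_ne hi]
        simp only [Finset.mem_insert, hi, false_or]
    have h2 := TT.simple_le P (w := fun i => if i ∈ T then 1 else w i) hz d
    rw [hu] at h2
    rw [Finset.card_insert_of_notMem hj]
    rcases Nat.eq_zero_or_pos
      (Module.finrank K ↥(VS (fun j => aff (P j)) (fun i => if i ∈ T then 1 else w i) d))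
      with h3 | h3
    · have hf := vs_fin (fun j => aff (P j)) (fun i => if i ∈ T then 1 else w i) d
      have h4 := Submodule.finrank_mono (vs_mono (fun j => aff (P j))
        (w' := fun i => if i ∈ T then 1 else w i) (w := fun i => if i ∈ insert j T then 1 else w i) d
        (fun i => by
          show (if i ∈ T then 1 else w i) ≤ if i ∈ insert j T then 1 else w i
          by_cases hi : i = j
          · subst hi
            have hw0 := hT i (Finset.mem_insert_self _ _)
            rw [if_neg hj, hw0]
            exact Nat.zero_le _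
          · simp only [Finset.mem_insert, hi, false_or]
            exact le_rfl))
      omega
    · have h4 := TT.simple_drop hP (w := fun i => if i ∈ T then 1 else w i) hz h3
      rw [hu] at h4
      omega

/-- Nearly uniform multiplicities and simple points: nonempty systems of the expected dimension are
reduced. -/
theorem red_near {n s : ℕ} (e : Fin n ↪ Fin s) {w : Fin s → ℕ} {d m : ℕ} (hm : 1 ≤ m)
    (hw : ∀ i, i ∉ Finset.univ.map e → w i ≤ 1)
    (hnear : (10 ≤ n ∧ ∀ j, w (e j) = m) ∨
      (15 ≤ n ∧ ∀ j, w (e j) = m ∨ w (e j) = m + 1))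
    (h : ∑ j, (w j + 1).choose 2 < (d + 2).choose 2) : Reduced d w := by
  classical
  have h0 : ∑ j, (w (e j) + 1).choose 2 ≤ ∑ j, (w j + 1).choose 2 := by
    rw [← Finset.sum_map Finset.univ e fun j => (w j + 1).choose 2]
    exact Finset.sum_le_sum_of_subset (Finset.subset_univ _)
  have hd := two_choose2 d
  have hm1 := two_choose1 m
  have hm2 := two_choose1 (m + 1)
  rcases hnear with ⟨hn, hj⟩ | ⟨hn, hj⟩
  · have h1 : ∑ j, (w (e j) + 1).choose 2 = n * (m + 1).choose 2 := by
      rw [Finset.sum_congr rfl fun j _ => by rw [hj j], Finset.sum_const, Finset.card_univ,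
        Fintype.card_fin, smul_eq_mul]
    have h2 : ∀ i, w i ≤ m := by
      intro i
      by_cases hi : i ∈ Finset.univ.map e
      · rw [Finset.mem_map] at hi
        obtain ⟨a, -, rfl⟩ := hi
        exact (hj a).le
      · exact (hw i hi).trans hm
    have h3 : 10 * (m + 1).choose 2 ≤ n * (m + 1).choose 2 := Nat.mul_le_mul_right _ hn
    have h4 : 3 * m ≤ d := by
      by_contra hcon
      have h5 : d + 1 ≤ 3 * m := by omega
      have h6 : (d + 1) * (d + 2) ≤ 3 * m * (3 * m + 1) := Nat.mul_le_mul h5 (by omega)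
      nlinarith
    intro i j k _ _ _
    have := h2 i
    have := h2 j
    have := h2 k
    omega
  · have h2 : ∀ i, w i ≤ m + 1 := by
      intro i
      by_cases hi : i ∈ Finset.univ.map e
      · rw [Finset.mem_map] at hi
        obtain ⟨a, -, rfl⟩ := hi
        rcases hj a with h3 | h3 <;> omega
      · have := hw i hi
        omega
    intro i j k hij hik hjk
    by_contra hcon
    push Not at hcon
    -- the number of the three indices of multiplicity `m + 1`
    have hge : ∀ T : Finset (Fin s), (∀ t ∈ T, w t = m + 1) →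
        n * (m + 1).choose 2 + T.card * (m + 1) ≤ ∑ j, (w j + 1).choose 2 := by
      intro T hT
      have h3 : ∀ t ∈ T, t ∈ Finset.univ.map e := by
        intro t ht
        by_contra h4
        have h5 := hw t h4
        have h6 := hT t ht
        omega
      have h4 : ∑ j ∈ Finset.univ.map e, ((m + 1).choose 2 + if j ∈ T then m + 1 else 0) ≤
          ∑ j ∈ Finset.univ.map e, (w j + 1).choose 2 := by
        refine Finset.sum_le_sum fun t ht => ?_
        rw [Finset.mem_map] at ht
        obtain ⟨a, -, rfl⟩ := ht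
        by_cases h5 : e a ∈ T
        · rw [if_pos h5, hT _ h5]
          nlinarith
        · rw [if_neg h5, Nat.add_zero]
          exact Nat.choose_le_choose 2 (by rcases hj a with h6 | h6 <;> omega)
      have h5 : ∑ j ∈ Finset.univ.map e, (w j + 1).choose 2 ≤ ∑ j, (w j + 1).choose 2 :=
        Finset.sum_le_sum_of_subset (Finset.subset_univ _)
      rw [Finset.sum_add_distrib, Finset.sum_const, Finset.card_map, Finset.card_univ,
        Fintype.card_fin, smul_eq_mul, Finset.sum_ite_mem, Finset.inter_eq_right.2 h3,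
        Finset.sum_const, smul_eq_mul] at h4
      exact h4.trans h5
    have h15 : 15 * (m + 1).choose 2 ≤ n * (m + 1).choose 2 := Nat.mul_le_mul_right _ hn
    have key : ∀ c : ℕ, c ≤ 3 → d + 1 ≤ 3 * m + c →
        n * (m + 1).choose 2 + c * (m + 1) ≤ ∑ j, (w j + 1).choose 2 → False := by
      intro c hc h3 h4
      have h6 : (d + 1) * (d + 2) ≤ (3 * m + c) * (3 * m + c + 1) := Nat.mul_le_mul h3 (by omega)
      interval_cases c <;> nlinarith
    have hi := h2 i
    have hj' := h2 j
    have hk := h2 k
    by_cases a1 : w i = m + 1 <;> by_cases a2 : w j = m + 1 <;> by_cases a3 : w k = m + 1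
    · refine key 3 le_rfl (by omega) ?_
      have := hge {i, j, k} (by simp [a1, a2, a3])
      rwa [Finset.card_eq_three.2 ⟨i, j, k, hij, hik, hjk, rfl⟩] at this
    · refine key 2 (by omega) (by omega) ?_
      have := hge {i, j} (by simp [a1, a2])
      rwa [Finset.card_pair hij] at this
    · refine key 2 (by omega) (by omega) ?_
      have := hge {i, k} (by simp [a1, a3])
      rwa [Finset.card_pair hik] at this
    · refine key 1 (by omega) (by omega) ?_
      have := hge {i} (by simp [a1])
      rwa [Finset.card_singleton] at this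
    · refine key 2 (by omega) (by omega) ?_
      have := hge {j, k} (by simp [a2, a3])
      rwa [Finset.card_pair hjk] at this
    · refine key 1 (by omega) (by omega) ?_
      have := hge {j} (by simp [a2])
      rwa [Finset.card_singleton] at this
    · refine key 1 (by omega) (by omega) ?_
      have := hge {k} (by simp [a3])
      rwa [Finset.card_singleton] at this
    · refine key 0 (by omega) (by omega) ?_
      have := hge ∅ (by simp)
      rwa [Finset.card_empty] at this

end Pool.Agent.TH885.CO
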