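import Pool.Agent.TH885.CO.Conv

set_option autoImplicit false

/-!
# Fixed components of special systems
-/

namespace Pool.Agent.TH885.CO

open MvPolynomial Pool.Agent Pool.Agent.TH167 Pool.Agent.W609.CR

/-- A `(-1)`-curve meeting the class negatively is a fixed component. -/
theorem exc_pow_dvd {K : Type} [Field K] {s : ℕ} {P : Fin s → Fin 2 → K}
    (hP : Function.Injective P) {C : MvPolynomial (Fin 3) K} {e : ℕ} {u : Fin s → ℕ}
    (hC : Exc P C e u) : ∀ (n : ℕ) (d : ℕ) (w : Fin s → ℕ), ip d w e u ≤ -(n : ℤ) →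
      ∀ f ∈ VS (fun j => aff (P j)) w d, C ^ n ∣ f := by
  classical
  intro n
  induction n with
  | zero =>
    intro d w _ f _
    rw [pow_zero]
    exact one_dvd f
  | succ n ih =>
    intro d w h f hf
    by_cases hf0 : f = 0
    · rw [hf0]
      exact dvd_zero _
    have hf' := hf
    rw [mem_VS] at hf'
    have hdvd : C ∣ f := by
      by_contra hnd
      have h1 := bez hP hC.irr hC.hom (fun j => (hC.ord j).1) hf0 hf'.1 hf'.2 hnd
      have h2 : (∑ j, (w j : ℤ) * u j) ≤ (d : ℤ) * e := by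
        have h3 : (∑ j, (w j : ℤ) * u j) = ((∑ j, u j * w j : ℕ) : ℤ) := by
          push_cast
          exact Finset.sum_congr rfl fun j _ => mul_comm _ _
        rw [h3, mul_comm (d : ℤ)]
        exact_mod_cast h1
      unfold ip at h
      push_cast at h
      have : (0 : ℤ) ≤ n := Int.natCast_nonneg n
      linarith
    obtain ⟨g, hg⟩ := hdvd
    have hg0 : g ≠ 0 := by
      rintro rfl
      exact hf0 (by rw [hg, mul_zero])
    have hdeg : f.totalDegree = d := hf'.1.totalDegree hf0
    have hdeg2 : C.totalDegree = e := hC.hom.totalDegree hC.irr.ne_zero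
    rw [hg, MvPolynomial.totalDegree_mul_of_isDomain hC.irr.ne_zero hg0, hdeg2] at hdeg
    have hgh := Pool.Agent.Chud.homog_of_dvd hf'.1 hf0 ⟨C, by rw [hg, mul_comm]⟩
    have hgd : g.totalDegree = d - e := by omega
    rw [hgd] at hgh
    have hgm : g ∈ VS (fun j => aff (P j)) (fun j => w j - u j) (d - e) := by
      rw [mem_VS]
      refine ⟨hgh, fun j => ?_⟩
      rcases Nat.lt_or_ge (w j) (u j) with h1 | h1
      · have : w j - u j = 0 := by omega
        rw [this]
        exact van_zero _ _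
      · refine van_of_mul (hC.ord j) ?_
        have h2 : u j + (w j - u j) = w j := by omega
        rw [h2, ← hg]
        exact hf'.2 j
    have hip : ip (d - e) (fun j => w j - u j) e u ≤ -(n : ℤ) := by
      have h1 := self_iff.1 hC.self
      unfold ip at h h1 ⊢
      have h2 : ∑ j, ((w j : ℤ) * u j - (u j : ℤ) * u j) ≤ ∑ j, ((w j - u j : ℕ) : ℤ) * u j := by
        refine Finset.sum_le_sum fun j _ => ?_
        have h3 : (w j : ℤ) - u j ≤ ((w j - u j : ℕ) : ℤ) := by omega
        have h4 : (0 : ℤ) ≤ u j := Int.natCast_nonneg _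
        nlinarith
      rw [Finset.sum_sub_distrib] at h2
      have h5 : ((d - e : ℕ) : ℤ) = (d : ℤ) - e := by omega
      rw [h5]
      push_cast at h
      nlinarith
    rw [pow_succ, hg, mul_comm]
    exact mul_dvd_mul_left _ (ih (d - e) _ hip g hgm)

/-- A `(-1)`-curve meeting the system at most `-2` times. -/
theorem mspecial_curve {K : Type} [Field K] {s : ℕ} {P : Fin s → Fin 2 → K} {d : ℕ}
    {w : Fin s → ℕ} (h : SHDefs.MinusOneSpecial P d w) :
    ∃ (G : MvPolynomial (Fin 3) K) (e : ℕ) (u : Fin s → ℕ), SHDefs.MinusOne P G e u ∧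
      SHDefs.inter d w e u ≤ -2 := by
  rw [mspecial_conv] at h
  obtain ⟨d', w', k, C, e, u, N, h1, h2, a, ha⟩ := h
  refine ⟨C a, e a, u a, minusOne_iff.2 (h1.exc a), ?_⟩
  rw [inter_eq, h1.neg a]
  omega

theorem curve_sq_dvd {K : Type} [Field K] {s : ℕ} {P : Fin s → Fin 2 → K}
    (hP : Function.Injective P) {d : ℕ} {w : Fin s → ℕ}
    {G : MvPolynomial (Fin 3) K} {e : ℕ} {u : Fin s → ℕ} (h : SHDefs.MinusOne P G e u)
    (h2 : SHDefs.inter d w e u ≤ -2) {f : MvPolynomial (Fin 3) K} (hf : f ∈ SHDefs.sys P d w) :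
    G ^ 2 ∣ f := by
  rw [sys_eq] at hf
  exact exc_pow_dvd hP (minusOne_iff.1 h) 2 d w h2 f hf

end Pool.Agent.TH885.CO
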